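import Pool.Agent.W940.LSD.Stm

/-!
# Project LS, part DENS: the deterministic lower bound
-/

set_option autoImplicit false

namespace Pool.Agent.W249.LSD

open Finset Filter Pool.Agent.W307.LS Pool.Agent.W940.LSD

open scoped Classical

/-- the odd primes whose square divides `a b` -/
noncomputable def MS (a b : ℤ) : Finset ℕ :=
  (a * b).natAbs.primeFactors.filter (fun p : ℕ => p ≠ 2 ∧ (p : ℤ) ^ 2 ∣ a * b)

theorem mm_eq (a b : ℤ) : MM a b = (MS a b).card := by
  unfold MM MS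
  rw [← Finset.card_image_of_injective _ (Nat.cast_injective (R := ℤ))]
  congr 1
  ext z
  rw [mem_image, mem_filter]
  have hb : z ∈ (do let c ← (a * b).natAbs.primeFactors; pure (c : ℤ) : Finset ℤ) ↔
      ∃ c ∈ (a * b).natAbs.primeFactors, (c : ℤ) = z := by
    rw [bind_pure_comp, Finset.fmap_def]
    simp only [Finset.mem_image]
  constructor
  · rintro ⟨h1, h2, h3⟩
    obtain ⟨c, hc, hz⟩ := hb.mp h1
    refine ⟨c, ?_, hz⟩
    rw [mem_filter]
    refine ⟨hc, ?_, ?_⟩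
    · rintro rfl
      apply h2
      rw [← hz]
      norm_num
    · rw [hz]
      exact h3
  · rintro ⟨c, hc, hz⟩
    rw [mem_filter] at hc
    refine ⟨hb.mpr ⟨c, hc.1, hz⟩, ?_, ?_⟩
    · rw [← hz]
      intro h
      apply hc.2.1
      exact_mod_cast h
    · rw [← hz]
      exact hc.2.2

theorem ss_lb (y : ℕ) (a b : ℤ) (ha : a ≠ 0) (hb : b ≠ 0) :
    ww y a + ww y b ≤ (SS a b).card + 2 * MM a b := by
  have hab : (a * b).natAbs ≠ 0 := by
    simp [ha, hb]
  unfold ww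
  rw [← Finset.card_union_add_card_inter]
  have h1 : ((PP y).filter (fun p : ℕ => (p : ℤ) ∣ a)) ∪ ((PP y).filter (fun p : ℕ => (p : ℤ) ∣ b))
      ⊆ SS a b ∪ (MS a b) := by
    intro p hp
    have hp' : p ∈ PP y ∧ ((p : ℤ) ∣ a ∨ (p : ℤ) ∣ b) := by
      rw [mem_union, mem_filter, mem_filter] at hp
      tauto
    obtain ⟨hpP, hd⟩ := hp'
    have hpp : p.Prime ∧ p ≠ 2 := by
      unfold PP at hpP
      rw [mem_filter] at hpP
      exact hpP.2
    have hdab : (p : ℤ) ∣ a * b := by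
      rcases hd with h | h
      · exact Dvd.dvd.mul_right h b
      · exact Dvd.dvd.mul_left h a
    have hmem : p ∈ (a * b).natAbs.primeFactors := by
      rw [Nat.mem_primeFactors]
      exact ⟨hpp.1, Int.natCast_dvd.mp hdab, hab⟩
    rw [mem_union]
    by_cases h2 : (p : ℤ) ^ 2 ∣ a * b
    · right
      unfold MS
      rw [mem_filter]
      exact ⟨hmem, hpp.2, h2⟩
    · left
      unfold SS
      rw [mem_filter]
      exact ⟨hmem, hpp.2, h2⟩
  have h2 : ((PP y).filter (fun p : ℕ => (p : ℤ) ∣ a)) ∩ ((PP y).filter (fun p : ℕ => (p : ℤ) ∣ b))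
      ⊆ (MS a b) := by
    intro p hp
    rw [mem_inter, mem_filter, mem_filter] at hp
    obtain ⟨⟨hpP, hda⟩, -, hdb⟩ := hp
    have hpp : p.Prime ∧ p ≠ 2 := by
      unfold PP at hpP
      rw [mem_filter] at hpP
      exact hpP.2
    have hdab : (p : ℤ) ^ 2 ∣ a * b := by
      rw [pow_two]
      exact mul_dvd_mul hda hdb
    have hmem : p ∈ (a * b).natAbs.primeFactors := by
      rw [Nat.mem_primeFactors]
      exact ⟨hpp.1, Int.natCast_dvd.mp (Dvd.dvd.mul_right hda b), hab⟩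
    unfold MS
    rw [mem_filter]
    exact ⟨hmem, hpp.2, hdab⟩
  have h3 := Finset.card_le_card h1
  have h4 := Finset.card_le_card h2
  have h5 := Finset.card_union_le (SS a b)
    (MS a b)
  have h6 : MM a b = (MS a b).card := mm_eq a b
  omega

theorem lt_yy (T : ℕ) : T < (yy T + 1) ^ 8 := by
  unfold yy
  have h1 : T < (T.sqrt + 1) ^ 2 := Nat.lt_succ_sqrt' T
  have h2 : T.sqrt < (T.sqrt.sqrt + 1) ^ 2 := Nat.lt_succ_sqrt' _
  have h3 : T.sqrt.sqrt < (T.sqrt.sqrt.sqrt + 1) ^ 2 := Nat.lt_succ_sqrt' _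
  have h4 : T.sqrt + 1 ≤ (T.sqrt.sqrt + 1) ^ 2 := h2
  have h5 : T.sqrt.sqrt + 1 ≤ (T.sqrt.sqrt.sqrt + 1) ^ 2 := h3
  calc T < (T.sqrt + 1) ^ 2 := h1
    _ ≤ ((T.sqrt.sqrt + 1) ^ 2) ^ 2 := Nat.pow_le_pow_left h4 2
    _ ≤ (((T.sqrt.sqrt.sqrt + 1) ^ 2) ^ 2) ^ 2 :=
        Nat.pow_le_pow_left (Nat.pow_le_pow_left h5 2) 2
    _ = (T.sqrt.sqrt.sqrt + 1) ^ 8 := by ring

theorem one_le_yy (T : ℕ) (hT : 1 ≤ T) : 1 ≤ yy T := by
  unfold yy
  have h1 : 1 ≤ T.sqrt := Nat.sqrt_pos.mpr hT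
  have h2 : 1 ≤ T.sqrt.sqrt := Nat.sqrt_pos.mpr h1
  exact Nat.sqrt_pos.mpr h2

theorem big_card (y n : ℕ) (hn : n ≠ 0) (hlt : n < (y + 1) ^ 9) :
    (n.primeFactors.filter (fun q => y < q)).card ≤ 9 := by
  set Z := n.primeFactors.filter (fun q => y < q) with hZ
  have h1 : ∏ q ∈ Z, q ∣ n :=
    (Finset.prod_dvd_prod_of_subset _ _ _ (Finset.filter_subset _ _)).trans
      (Nat.prod_primeFactors_dvd n)
  have h2 : (y + 1) ^ Z.card ≤ ∏ q ∈ Z, q := by
    rw [← Finset.prod_const]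
    apply Finset.prod_le_prod
    · intro i _
      exact Nat.zero_le _
    · intro i hi
      rw [hZ, mem_filter] at hi
      exact hi.2
  have h3 : ∏ q ∈ Z, q ≤ n := Nat.le_of_dvd (Nat.pos_of_ne_zero hn) h1
  by_contra hcon
  have h4 : 9 ≤ Z.card := by omega
  have h5 : (y + 1) ^ 9 ≤ (y + 1) ^ Z.card := Nat.pow_le_pow_right (Nat.succ_pos y) h4
  omega

theorem bb_ub (y : ℕ) (a b : ℤ) (ha : a ≠ 0) (hb : b ≠ 0) (hab : a ≠ b) :
    (BB a b).card ≤ MM a b +
      ((PP y).filter (fun q : ℕ => (q : ℤ) ∣ a - b)).card.min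
        (((PP y).filter (fun q : ℕ => (q : ℤ) ∣ a - b)).filter
          (fun q : ℕ => jacobiSym a q = 1)).card +
      ((a - b).natAbs.primeFactors.filter (fun q => y < q)).card := by
  have habn : (a * b).natAbs ≠ 0 := by
    simp [ha, hb]
  have hsub : (a - b).natAbs ≠ 0 := by
    rw [Int.natAbs_ne_zero]
    exact sub_ne_zero.mpr hab
  set X := (((PP y).filter (fun q : ℕ => (q : ℤ) ∣ a - b)).filter
          (fun q : ℕ => jacobiSym a q = 1)) with hX
  have hXle : X.card ≤ ((PP y).filter (fun q : ℕ => (q : ℤ) ∣ a - b)).card :=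
    Finset.card_le_card (Finset.filter_subset _ _)
  have hmin : ((PP y).filter (fun q : ℕ => (q : ℤ) ∣ a - b)).card.min X.card = X.card :=
    Nat.min_eq_right hXle
  rw [hmin]
  set Z := ((a - b).natAbs.primeFactors.filter (fun q => y < q)) with hZ
  set M := MS a b with hM
  have hMM : MM a b = M.card := mm_eq a b
  have hsubset : BB a b ⊆ M ∪ X ∪ Z := by
    intro q hq
    unfold BB at hq
    rw [mem_filter] at hq
    obtain ⟨hq1, hq2, hq3⟩ := hq
    have hqp : q.Prime := Nat.prime_of_mem_primeFactors hq1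
    rcases hq3 with h | ⟨h1, h2, h3⟩
    · rw [mem_union, mem_union]
      left
      left
      unfold MS at hM
      rw [hM, mem_filter, Nat.mem_primeFactors]
      refine ⟨⟨hqp, ?_, habn⟩, hq2, h⟩
      apply Int.natCast_dvd.mp
      exact (Dvd.intro _ (pow_two (q : ℤ)).symm).trans h
    · rw [mem_union, mem_union]
      by_cases hy : y < q
      · right
        rw [hZ, mem_filter, Nat.mem_primeFactors]
        exact ⟨⟨hqp, Int.natCast_dvd.mp h1, hsub⟩, hy⟩
      · left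
        right
        rw [hX, mem_filter, mem_filter]
        refine ⟨⟨?_, h1⟩, h3⟩
        unfold PP
        rw [mem_filter, mem_range]
        exact ⟨by omega, hqp, hq2⟩
  have h1 := Finset.card_le_card hsubset
  have h2 := Finset.card_union_le (M ∪ X) Z
  have h3 := Finset.card_union_le M X
  rw [hMM]
  omega

theorem x_ub (y : ℕ) (a b : ℤ) :
    ((((PP y).filter (fun q : ℕ => (q : ℤ) ∣ a - b)).filter
          (fun q : ℕ => jacobiSym a q = 1)).card : ℝ) ≤
      ((ww y (a - b) : ℝ) + VV y a b) / 2 := by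
  unfold ww VV
  set P := (PP y).filter (fun q : ℕ => (q : ℤ) ∣ a - b) with hP
  have h1 : (P.card : ℝ) = ∑ q ∈ P, (1 : ℝ) := by
    simp
  have h2 : ((P.card : ℝ) + ∑ p ∈ P, ((jacobiSym a p : ℤ) : ℝ)) / 2 =
      ∑ q ∈ P, (1 + ((jacobiSym a q : ℤ) : ℝ)) / 2 := by
    rw [h1, ← Finset.sum_add_distrib, Finset.sum_div]
  rw [h2]
  have h3 : ((P.filter (fun q : ℕ => jacobiSym a q = 1)).card : ℝ) =
      ∑ q ∈ P.filter (fun q : ℕ => jacobiSym a q = 1), (1 + ((jacobiSym a q : ℤ) : ℝ)) / 2 := by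
    rw [Finset.card_eq_sum_ones]
    push_cast
    apply Finset.sum_congr rfl
    intro q hq
    rw [mem_filter] at hq
    rw [hq.2]
    norm_num
  rw [h3]
  apply Finset.sum_le_sum_of_subset_of_nonneg (Finset.filter_subset _ _)
  intro q _ _
  rcases jacobiSym.trichotomy a q with h | h | h <;> rw [h] <;> norm_num

theorem det : DET := by
  refine Filter.Eventually.of_forall ?_
  rintro T ⟨a, b⟩ ht
  unfold Bx at ht
  rw [mem_filter, mem_product, mem_Icc, mem_Icc] at ht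
  obtain ⟨⟨⟨ha1, ha2⟩, hb1, hb2⟩, ha, hb, hab⟩ := ht
  simp only at ha1 ha2 hb1 hb2 ha hb hab ⊢
  have hT : 1 ≤ T := by
    by_contra h
    have h0 : T = 0 := by omega
    subst h0
    apply ha
    push_cast at ha1 ha2
    omega
  have hy := one_le_yy T hT
  have hlt : (a - b).natAbs < (yy T + 1) ^ 9 := by
    have h1 : (a - b).natAbs ≤ 2 * T := by omega
    have h2 := lt_yy T
    have h3 : 2 * T < (yy T + 1) ^ 9 := by
      have h4 : (yy T + 1) ^ 9 = (yy T + 1) * (yy T + 1) ^ 8 := by ring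
      rw [h4]
      have h5 : 2 * (yy T + 1) ^ 8 ≤ (yy T + 1) * (yy T + 1) ^ 8 :=
        Nat.mul_le_mul_right _ (by omega)
      omega
    omega
  have hne : (a - b).natAbs ≠ 0 := by
    rw [Int.natAbs_ne_zero]
    exact sub_ne_zero.mpr hab
  have e1 := ss_lb (yy T) a b ha hb
  have e2 := bb_ub (yy T) a b ha hb hab
  have e3 := big_card (yy T) (a - b).natAbs hne hlt
  have e4 := x_ub (yy T) a b
  have e5 := Nat.min_le_right ((PP (yy T)).filter (fun q : ℕ => (q : ℤ) ∣ a - b)).card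
    (((PP (yy T)).filter (fun q : ℕ => (q : ℤ) ∣ a - b)).filter
          (fun q : ℕ => jacobiSym a q = 1)).card
  have e6 : (BB a b).card ≤ MM a b + (((PP (yy T)).filter (fun q : ℕ => (q : ℤ) ∣ a - b)).filter
          (fun q : ℕ => jacobiSym a q = 1)).card + 9 := by
    have : ((PP (yy T)).filter (fun q : ℕ => (q : ℤ) ∣ a - b)).card.min
        (((PP (yy T)).filter (fun q : ℕ => (q : ℤ) ∣ a - b)).filter
          (fun q : ℕ => jacobiSym a q = 1)).card ≤
        (((PP (yy T)).filter (fun q : ℕ => (q : ℤ) ∣ a - b)).filter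
          (fun q : ℕ => jacobiSym a q = 1)).card := e5
    omega
  have f1 : ((ww (yy T) a : ℝ)) + ww (yy T) b ≤ (SS a b).card + 2 * MM a b := by
    exact_mod_cast e1
  have f2 : ((BB a b).card : ℝ) ≤ MM a b + ((((PP (yy T)).filter
      (fun q : ℕ => (q : ℤ) ∣ a - b)).filter (fun q : ℕ => jacobiSym a q = 1)).card : ℝ) + 9 := by
    exact_mod_cast e6
  unfold gg
  linarith

end Pool.Agent.W249.LSD

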